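import Mathlib

/-!
# Derivations of fields of characteristic zero: extension to an arbitrary extension field
-/

set_option autoImplicit false
set_option linter.unusedSectionVars false

namespace Pool.Agent.SMS

/-- extensions of a field of characteristic zero are formally smooth -/
theorem formallySmooth_of_charZero (K L : Type) [Field K] [Field L] [Algebra K L] [CharZero K] :
    Algebra.FormallySmooth K L := by
  obtain ⟨ι, v, hv⟩ := exists_isTranscendenceBasis' K L
  have h1 : Algebra.IsAlgebraic (IntermediateField.adjoin K (Set.range v)) L :=
    hv.isAlgebraic_field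
  have h3 : CharZero (IntermediateField.adjoin K (Set.range v)) :=
    charZero_of_injective_algebraMap
      (algebraMap K (IntermediateField.adjoin K (Set.range v))).injective
  have h2 : Algebra.IsSeparable (IntermediateField.adjoin K (Set.range v)) L := inferInstance
  exact Algebra.FormallySmooth.of_algebraicIndependent_of_isSeparable hv.1

/-- a derivation of `A` to a field `L` which is formally smooth over `A` extends to `L` -/
theorem exists_der_ext {k A L : Type} [Field k] [CommRing A] [Field L] [Algebra k A]
    [Algebra A L] [Algebra k L] [IsScalarTower k A L] (hs : Algebra.FormallySmooth A L)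
    (d : Derivation k A L) :
    ∃ δ : Derivation k L L, ∀ s, δ (algebraMap A L s) = d s := by
  have hinj : Function.Injective (KaehlerDifferential.mapBaseChange k A L) := by
    rw [injective_iff_map_eq_zero]
    intro x hx
    obtain ⟨y, rfl⟩ := (Algebra.H1Cotangent.exact_δ_mapBaseChange k A L x).1 hx
    have h1 : Subsingleton (Algebra.H1Cotangent A L) := hs.subsingleton_h1Cotangent
    rw [Subsingleton.elim y 0, map_zero]
  obtain ⟨g, hg⟩ := (KaehlerDifferential.mapBaseChange k A L).exists_leftInverse_of_injective
    (LinearMap.ker_eq_bot.2 hinj)
  refine ⟨((LinearMap.liftBaseChange L d.liftKaehlerDifferential).comp g).compDer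
    (KaehlerDifferential.D k L), fun s => ?_⟩
  change (LinearMap.liftBaseChange L d.liftKaehlerDifferential)
    (g (KaehlerDifferential.D k L (algebraMap A L s))) = _
  have h1 : KaehlerDifferential.D k L (algebraMap A L s) =
      KaehlerDifferential.mapBaseChange k A L (1 ⊗ₜ KaehlerDifferential.D k A s) := by
    rw [KaehlerDifferential.mapBaseChange_tmul, one_smul, KaehlerDifferential.map_D]
  have h2 : g (KaehlerDifferential.mapBaseChange k A L (1 ⊗ₜ KaehlerDifferential.D k A s)) =
      1 ⊗ₜ KaehlerDifferential.D k A s := by
    have := LinearMap.congr_fun hg (1 ⊗ₜ KaehlerDifferential.D k A s)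
    simpa using this
  rw [h1, h2, LinearMap.liftBaseChange_tmul, one_smul, Derivation.liftKaehlerDifferential_comp_D]

/-- a derivation of `K` extends to every extension field `L` of `K` (characteristic zero) -/
theorem exists_der_ext_field {k K L : Type} [Field k] [Field K] [Field L] [Algebra k K]
    [Algebra K L] [Algebra k L] [IsScalarTower k K L] [CharZero K] (d : Derivation k K K) :
    ∃ δ : Derivation k L L, ∀ s, δ (algebraMap K L s) = algebraMap K L (d s) :=
  exists_der_ext (formallySmooth_of_charZero K L) ((Algebra.linearMap K L).compDer d)

open Polynomial in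
/-- the derivation `d / dζ` of a field `L` for an element transcendental over `k` -/
theorem exists_der {k L : Type} [Field k] [CharZero k] [Field L] [Algebra k L] (ζ : L)
    (hζ : Transcendental k ζ) : ∃ δ : Derivation k L L, δ ζ = 1 := by
  let : Algebra k[X] L := (aeval ζ).toAlgebra
  have ht : IsScalarTower k k[X] L := IsScalarTower.of_algebraMap_eq' (by
    ext x
    change algebraMap k L x = aeval ζ (C x)
    rw [aeval_C])
  have hinj : Function.Injective (algebraMap k[X] L) :=
    transcendental_iff_injective.1 hζ
  let K := FractionRing k[X]
  let : Algebra K L := (IsFractionRing.lift (K := K) hinj).toAlgebra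
  have ht2 : IsScalarTower k[X] K L := IsScalarTower.of_algebraMap_eq' (by
    ext x <;>
    simp [RingHom.algebraMap_toAlgebra])
  have hK : CharZero K := inferInstance
  have h1 : Algebra.FormallySmooth K L := formallySmooth_of_charZero K L
  have h2 : Algebra.FormallyEtale k[X] K := 
    Algebra.FormallyEtale.of_isLocalization (nonZeroDivisors k[X])
  have h3 : Algebra.FormallySmooth k[X] L := Algebra.FormallySmooth.comp k[X] K L
  obtain ⟨δ, hδ⟩ := exists_der_ext h3 
    ((Algebra.linearMap k[X] L).compDer (Polynomial.derivative'))
  refine ⟨δ, ?_⟩
  have h4 := hδ X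
  have h5 : algebraMap k[X] L X = ζ := aeval_X ζ
  rw [h5] at h4
  rw [h4]
  simp

end Pool.Agent.SMS
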